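import Mathlib
import Pool.Agent.Helper16.HR.Stmts

set_option autoImplicit false

namespace Pool.Helper16.HR

open Finset

lemma set_num (q M m : ℕ) (hm : 1 ≤ m) (hM : 2 ≤ M) (h : 4 * q * m ≤ M) :
    (q : ℝ) * (2 / (M : ℝ) ^ 2) ≤ 1 / m := by
  have hm0 : (0 : ℝ) < m := by exact_mod_cast hm
  have hM0 : (2 : ℝ) ≤ M := by exact_mod_cast hM
  have h' : 4 * (q : ℝ) * m ≤ M := by exact_mod_cast h
  have hM2 : (0 : ℝ) < (M : ℝ) ^ 2 := by positivity
  rw [mul_div_assoc', div_le_div_iff₀ hM2 hm0]
  nlinarith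

lemma set_bad_num (q M' M : ℕ) (hM : 2 ≤ M) (hMM : M ≤ M') :
    (M' : ℝ) * del M' + M' * (bet q M' / gam q M' ^ 2) ≤ 2 / (M : ℝ) ^ 2 := by
  have hM0 : (0 : ℝ) < M := by
    have : 0 < M := by omega
    exact_mod_cast this
  have hM'0 : (0 : ℝ) < M' := by
    have : 0 < M' := by omega
    exact_mod_cast this
  have hle : (M : ℝ) ≤ M' := by exact_mod_cast hMM
  have h1 : (M' : ℝ) * del M' = 1 / (M' : ℝ) ^ 2 := by
    unfold del
    field_simp
  have h2 : (M' : ℝ) * (bet q M' / gam q M' ^ 2) = 1 / (M' : ℝ) ^ 2 := by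
    unfold bet gam
    have hp : (M' : ℝ) ^ (2 * Gq q + 3) = ((M' : ℝ) ^ Gq q) ^ 2 * (M' : ℝ) ^ 3 := by
      rw [← pow_mul, ← pow_add]
      ring_nf
    rw [hp]
    field_simp
  rw [h1, h2]
  have h3 : 1 / (M' : ℝ) ^ 2 ≤ 1 / (M : ℝ) ^ 2 :=
    one_div_le_one_div_of_le (by positivity) (pow_le_pow_left₀ hM0.le hle 2)
  have h4 : (2 : ℝ) / (M : ℝ) ^ 2 = 1 / (M : ℝ) ^ 2 + 1 / (M : ℝ) ^ 2 := by ring
  rw [h4]
  linarith

theorem st_SET (hB : ST_BAD) (hC : ST_CNT) : ST_SET := by
  classical
  intro I V _ _ _ _ L rk hL j F hRP hrk E hEL hcov m M hm hM2 hMq B hBd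
  set q := L.card with hq
  -- the colouring
  set c0 : Finset I → (I → V) → ℕ := fun T x => if T ∈ E ∧ B T x then 1 else 0 with hc0
  have hSys : Sys L c0 M := by
    intro T hT
    constructor
    · intro x y hxy
      simp only [hc0]
      by_cases hTE : T ∈ E
      · rw [hBd T hTE x y hxy]
      · simp [hTE]
    · intro x
      simp only [hc0]
      split_ifs <;> omega
  obtain ⟨c, Ms, h1, h2, h3, h4, _, h6, h7⟩ := hRP M hM2 c0 hSys
  have hMs : ∀ r, M ≤ Ms r := by
    intro r
    by_cases hr : j < r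
    · rw [h2 r hr]
    · have := h1 r (j + 1) (by omega)
      rw [h2 (j + 1) (by omega)] at this
      exact this
  have hMs2 : ∀ r, 2 ≤ Ms r := fun r => le_trans hM2 (hMs r)
  have hDep : ∀ U ∈ L, Dep U (c U) := fun U hU => (h6 U hU).1
  have hex : ∀ T : Finset I, ∃ D : ℕ → (I → V) → ℝ, T ∈ L → ∀ a : ℕ, Dep T (D a) ∧
      (∀ x, 0 ≤ D a x ∧ D a x ≤ 1) ∧
      av (fun x => (D a x - ce L c T (ind c T a) x) ^ 2) ≤ bet q (Ms (rk T)) ∧
      Disc L T (fun x => ind c T a x - D a x) (eta q (Ms 0)) := by
    intro T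
    by_cases hT : T ∈ L
    · have h8 := h7 T hT (hrk T hT)
      unfold Reg at h8
      choose D hD using h8
      exact ⟨D, fun _ => hD⟩
    · exact ⟨fun _ _ => 0, fun h => absurd h hT⟩
  choose D hD using hex
  -- facts on bad points
  have hgam : ∀ r, 0 < gam q (Ms r) := by
    intro r
    have : (0 : ℝ) < (Ms r : ℝ) := by
      have := hMs2 r
      have h0 : 0 < Ms r := by omega
      exact_mod_cast h0
    unfold gam
    positivity
  have hdel : ∀ r, 0 < del (Ms r) := by
    intro r
    have : (0 : ℝ) < (Ms r : ℝ) := by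
      have := hMs2 r
      have h0 : 0 < Ms r := by omega
      exact_mod_cast h0
    unfold del
    positivity
  have hBad := fun (T : Finset I) (hT : T ∈ L) =>
    hB I V L c hDep T hT (Ms (rk T)) (h6 T hT).2 (D T) (bet q (Ms (rk T))) (gam q (Ms (rk T)))
      (del (Ms (rk T))) (hgam _) (hdel _).le (fun a => (hD T hT a).2.2.1)
  -- the sets to be removed
  set Z : Finset I → (I → V) → Prop := fun e x => ∃ T ∈ L, T ⊆ e ∧
    BadPt L c T (D T) (del (Ms (rk T))) (gam q (Ms (rk T))) x with hZ
  by_cases hx0 : ∃ x0, ∀ e ∈ E, B e x0 ∧ ¬ Z e x0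
  · left
    obtain ⟨x0, hx0⟩ := hx0
    have hnb : ∀ T ∈ L, ¬ BadPt L c T (D T) (del (Ms (rk T))) (gam q (Ms (rk T))) x0 := by
      intro T hT hbad
      obtain ⟨e, he, hTe⟩ := hcov T hT
      exact (hx0 e he).2 ⟨T, hT, hTe, hbad⟩
    have hcnt := hC I V L rk hL c hDep Ms x0 (fun T => D T (c T x0)) h1 hMs2
      (fun T hT => ⟨(hD T hT _).1, (hD T hT _).2.1⟩)
      (fun T hT => by
        have := hnb T hT
        unfold BadPt at this
        push Not at this
        exact this.1)
      (fun T hT => by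
        have := hnb T hT
        unfold BadPt at this
        push Not at this
        exact this.2)
      (fun T hT => (hD T hT _).2.2.2)
    have hle : av (fun x => ∏ T ∈ L, ind c T (c T x0) x) ≤
        av (fun x => ∏ e ∈ E, if B e x then (1 : ℝ) else 0) := by
      apply av_mono
      intro x
      by_cases hall : ∀ T ∈ L, c T x = c T x0
      · have e1 : ∏ e ∈ E, (if B e x then (1 : ℝ) else 0) = 1 := by
          apply Finset.prod_eq_one
          intro e he
          have e2 := h4 e (hEL he) x x0 (hall e (hEL he))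
          simp only [hc0] at e2
          rw [if_pos (⟨he, (hx0 e he).1⟩ : e ∈ E ∧ B e x0)] at e2
          by_cases hb : B e x
          · rw [if_pos hb]
          · rw [if_neg (fun hh => hb hh.2)] at e2
            exact absurd e2 (by norm_num)
        rw [e1]
        apply Finset.prod_le_one
        · intro T _
          exact ind_nonneg _ _
        · intro T _
          exact ind_le_one _ _
      · push Not at hall
        obtain ⟨T, hT, hne⟩ := hall
        have e1 : ∏ T ∈ L, ind c T (c T x0) x = 0 := by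
          apply Finset.prod_eq_zero hT
          unfold ind
          rw [if_neg hne]
        rw [e1]
        apply Finset.prod_nonneg
        intro e _
        split_ifs <;> norm_num
    refine le_trans ?_ (le_trans hcnt hle)
    have hMs0 : (0 : ℝ) < (Ms 0 : ℝ) := by
      have := hMs2 0
      have h0 : 0 < Ms 0 := by omega
      exact_mod_cast h0
    have e3 : del (Ms 0) ^ q / 2 = 1 / (2 * (Ms 0 : ℝ) ^ (3 * q)) := by
      unfold del
      rw [div_pow, one_pow, ← pow_mul, div_div, mul_comm]
    rw [e3]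
    apply one_div_le_one_div_of_le (by positivity)
    apply mul_le_mul_of_nonneg_left _ (by norm_num)
    apply pow_le_pow_left₀ hMs0.le
    exact_mod_cast h3
  · right
    push Not at hx0
    refine ⟨Z, ?_, ?_, ?_⟩
    · intro e _ x y hxy
      simp only [hZ]
      apply propext
      constructor
      · rintro ⟨T, hT, hTe, hbad⟩
        refine ⟨T, hT, hTe, ?_⟩
        rw [← (hBad T hT).1 x y (fun i hi => hxy i (hTe hi))]
        exact hbad
      · rintro ⟨T, hT, hTe, hbad⟩
        refine ⟨T, hT, hTe, ?_⟩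
        rw [(hBad T hT).1 x y (fun i hi => hxy i (hTe hi))]
        exact hbad
    · intro e _
      refine le_trans (b := av (fun x => ∑ T ∈ L, if BadPt L c T (D T) (del (Ms (rk T)))
            (gam q (Ms (rk T))) x then (1 : ℝ) else 0)) ?_ ?_
      · apply av_mono
        intro x
        by_cases hz : Z e x
        · rw [if_pos hz]
          obtain ⟨T, hT, _, hbad⟩ := hz
          have e2 : (if BadPt L c T (D T) (del (Ms (rk T))) (gam q (Ms (rk T))) x
            then (1 : ℝ) else 0) = 1 := if_pos hbad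
          refine le_trans (le_of_eq e2.symm) ?_
          apply Finset.single_le_sum (f := fun T => if BadPt L c T (D T) (del (Ms (rk T)))
            (gam q (Ms (rk T))) x then (1 : ℝ) else 0) _ hT
          intro T' _
          split_ifs <;> norm_num
        · rw [if_neg hz]
          apply Finset.sum_nonneg
          intro T' _
          split_ifs <;> norm_num
      rw [av_sum]
      have e2 : ∑ T ∈ L, av (fun x => if BadPt L c T (D T) (del (Ms (rk T)))
          (gam q (Ms (rk T))) x then (1 : ℝ) else 0) ≤ ∑ _T ∈ L, 2 / (M : ℝ) ^ 2 := by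
        apply Finset.sum_le_sum
        intro T hT
        exact le_trans (hBad T hT).2 (set_bad_num q (Ms (rk T)) M hM2 (hMs _))
      refine le_trans e2 ?_
      rw [Finset.sum_const, nsmul_eq_mul]
      exact set_num q M m hm hM2 hMq
    · intro x hx
      obtain ⟨e, he, hz⟩ := hx0 x
      exact (hx e he).2 (hz (hx e he).1)

end Pool.Helper16.HR
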